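import Pool.Agent.H71.SN.Words

open CategoryTheory MonoidalCategory

set_option linter.unusedSectionVars false

namespace Pool.Agent.H71.SN

universe v u

section defs

variable {C : Type u} [Category.{v} C] [MonoidalCategory C]

/-- `f ⊗ f ⊗ ⋯ ⊗ f` with `n` factors. -/
def mpow {A B : C} (f : A ⟶ B) : (n : ℕ) → (tpow A n ⟶ tpow B n)
  | 0 => 𝟙 (𝟙_ C)
  | n + 1 => f ⊗ₘ mpow f n

/-- insertion of the element `x : 𝟙 ⟶ A` as a first tensor factor -/
def ins {A : C} (x : 𝟙_ C ⟶ A) (T : C) : T ⟶ A ⊗ T := (λ_ T).inv ≫ x ▷ T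

variable [BraidedCategory C]

/-- exchange of the first two tensor factors -/
def swapL (A B T : C) : A ⊗ (B ⊗ T) ⟶ B ⊗ (A ⊗ T) :=
  (α_ A B T).inv ≫ (β_ A B).hom ▷ T ≫ (α_ B A T).hom

end defs

section symm

variable {C : Type u} [Category.{v} C] [Preadditive C] [MonoidalCategory C] [BraidedCategory C]

/-- The sum of the `n + 1` permutations of `A^{⊗(n+1)}` that move the first factor to one of the
`n + 1` possible places and keep the order of the other factors. -/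
def insSum (A : C) : (n : ℕ) → (tpow A (n + 1) ⟶ tpow A (n + 1))
  | 0 => 𝟙 _
  | n + 1 => 𝟙 _ + swapL A A (tpow A n) ≫ A ◁ insSum A n

/-- The symmetrizer of `A^{⊗n}`: the sum of all `n!` permutations of the tensor factors. -/
def symmetrizer (A : C) : (n : ℕ) → (tpow A n ⟶ tpow A n)
  | 0 => 𝟙 _
  | n + 1 => A ◁ symmetrizer A n ≫ insSum A n

/-- the sum of the insertions of `x` at all `n + 1` places -/
def insAll {A : C} (x : 𝟙_ C ⟶ A) : (n : ℕ) → (tpow A n ⟶ tpow A (n + 1))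
  | 0 => ins x (𝟙_ C)
  | n + 1 => ins x (tpow A (n + 1)) + A ◁ insAll x n

end symm

section basic

variable {C : Type u} [Category.{v} C] [MonoidalCategory C]

theorem ins_naturality {A S T : C} (x : 𝟙_ C ⟶ A) (g : S ⟶ T) :
    g ≫ ins x T = ins x S ≫ A ◁ g := by
  unfold ins
  rw [← Category.assoc, leftUnitor_inv_naturality, Category.assoc, whisker_exchange,
    Category.assoc]

theorem ins_assoc {A S T : C} (x : 𝟙_ C ⟶ A) :
    ins x (S ⊗ T) = ins x S ▷ T ≫ (α_ A S T).hom := by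
  unfold ins
  simp

theorem epow_ins {A : C} (x : 𝟙_ C ⟶ A) (n : ℕ) : epow x n ≫ ins x (tpow A n) = epow x (n + 1) := by
  change _ = (λ_ (𝟙_ C)).inv ≫ (x ⊗ₘ epow x n)
  rw [ins_naturality, MonoidalCategory.tensorHom_def]
  unfold ins
  simp

theorem ins_tensorHom {A B S T : C} (x : 𝟙_ C ⟶ A) (f : A ⟶ B) (g : S ⟶ T) :
    ins x S ≫ (f ⊗ₘ g) = ins (x ≫ f) S ≫ B ◁ g := by
  unfold ins
  rw [MonoidalCategory.tensorHom_def]
  simp

variable [BraidedCategory C]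

theorem ins_swapL {A B T : C} (x : 𝟙_ C ⟶ A) :
    ins x (B ⊗ T) ≫ swapL A B T = B ◁ ins x T := by
  unfold swapL
  rw [ins_assoc]
  simp only [Category.assoc, Iso.hom_inv_id_assoc]
  rw [← comp_whiskerRight_assoc]
  have h : ins x B ≫ (β_ A B).hom = (ρ_ B).inv ≫ B ◁ x := by
    unfold ins
    rw [Category.assoc, BraidedCategory.braiding_naturality_left]
    rw [← Category.assoc]
    congr 1
    rw [Iso.inv_comp_eq]
    simp
  rw [h]
  unfold ins
  simp

theorem swapL_tensorHom {A A' B B' T T' : C} (f : A ⟶ A') (g : B ⟶ B') (h : T ⟶ T') :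
    swapL A B T ≫ (g ⊗ₘ (f ⊗ₘ h)) = (f ⊗ₘ (g ⊗ₘ h)) ≫ swapL A' B' T' := by
  have h1 : (β_ A B).hom ▷ T ≫ ((g ⊗ₘ f) ⊗ₘ h) = ((f ⊗ₘ g) ⊗ₘ h) ≫ (β_ A' B').hom ▷ T' := by
    rw [← MonoidalCategory.tensorHom_id, ← MonoidalCategory.tensorHom_id,
      MonoidalCategory.tensorHom_comp_tensorHom, MonoidalCategory.tensorHom_comp_tensorHom,
      BraidedCategory.braiding_naturality]
    simp
  unfold swapL
  simp only [Category.assoc]
  rw [← associator_naturality, reassoc_of% h1, associator_inv_naturality_assoc]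

end basic

section symm

variable {C : Type u} [Category.{v} C] [Preadditive C] [MonoidalCategory C] [BraidedCategory C]
  [MonoidalPreadditive C]

theorem ins_insSum {A : C} (x : 𝟙_ C ⟶ A) (n : ℕ) :
    ins x (tpow A n) ≫ insSum A n = insAll x n := by
  induction n with
  | zero => exact Category.comp_id _
  | succ n ih =>
    change ins x (A ⊗ tpow A n) ≫ (𝟙 _ + swapL A A (tpow A n) ≫ A ◁ insSum A n) =
      ins x (A ⊗ tpow A n) + A ◁ insAll x n
    rw [Preadditive.comp_add, Category.comp_id, ← Category.assoc, ins_swapL,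
      ← MonoidalCategory.whiskerLeft_comp, ih]

theorem ins_symmetrizer {A : C} (x : 𝟙_ C ⟶ A) (n : ℕ) :
    ins x (tpow A n) ≫ symmetrizer A (n + 1) = symmetrizer A n ≫ insAll x n := by
  change ins x (tpow A n) ≫ A ◁ symmetrizer A n ≫ insSum A n = _
  rw [← Category.assoc, ← ins_naturality, Category.assoc, ins_insSum]

end symm

section pairing

variable {C : Type u} [Category.{v} C] [Preadditive C] [MonoidalCategory C] [BraidedCategory C]
  [MonoidalPreadditive C]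

variable {A L : C} (q : A ⊗ A ⟶ L) (x : 𝟙_ C ⟶ A)

/-- the functional `q(x, -)` -/
def fnl : A ⟶ L := ins x A ≫ q

/-- the sum of all products of `r` factors `q(x, -)` and `q` with `n` entries -/
def gwords : (n r : ℕ) → (tpow A n ⟶ tpow L r)
  | 0, 0 => 𝟙 (𝟙_ C)
  | 0, _ + 1 => 0
  | _ + 1, 0 => 0
  | 1, r + 1 => fnl q x ⊗ₘ gwords 0 r
  | n + 2, r + 1 => (fnl q x ⊗ₘ gwords (n + 1) r) + (α_ A A (tpow A n)).inv ≫ (q ⊗ₘ gwords n r)

variable {q x}

theorem ins_q {T T' : C} (g : T ⟶ T') :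
    ins x (A ⊗ T) ≫ (α_ A A T).inv ≫ (q ⊗ₘ g) = fnl q x ⊗ₘ g := by
  rw [ins_assoc, Category.assoc, Iso.hom_inv_id_assoc, ← MonoidalCategory.tensorHom_id,
    MonoidalCategory.tensorHom_comp_tensorHom, Category.id_comp]
  rfl

theorem ins_q2 (hq : (β_ A A).hom ≫ q = q) {T T' : C} (g : T ⟶ T') :
    A ◁ ins x T ≫ (α_ A A T).inv ≫ (q ⊗ₘ g) = fnl q x ⊗ₘ g := by
  rw [← ins_swapL]
  unfold swapL
  simp only [Category.assoc, Iso.hom_inv_id_assoc]
  rw [← MonoidalCategory.tensorHom_id, MonoidalCategory.tensorHom_comp_tensorHom,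
    hq, Category.id_comp, ins_q]

theorem ins_fnl (hx : x ≫ fnl q x = 0) {T T' : C} (g : T ⟶ T') :
    ins x T ≫ (fnl q x ⊗ₘ g) = 0 := by
  rw [ins_tensorHom, hx]
  unfold ins
  simp

theorem whisker_fnl {S T T' : C} (h : S ⟶ T) (g : T ⟶ T') :
    A ◁ h ≫ (fnl q x ⊗ₘ g) = fnl q x ⊗ₘ (h ≫ g) := by
  rw [← MonoidalCategory.id_tensorHom, MonoidalCategory.tensorHom_comp_tensorHom,
    Category.id_comp]

theorem whisker_q {S T T' : C} (h : S ⟶ T) (g : T ⟶ T') :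
    A ◁ (A ◁ h) ≫ (α_ A A T).inv ≫ (q ⊗ₘ g) = (α_ A A S).inv ≫ (q ⊗ₘ (h ≫ g)) := by
  have h1 : A ◁ A ◁ h ≫ (α_ A A T).inv = (α_ A A S).inv ≫ (A ⊗ A) ◁ h := by simp
  rw [← Category.assoc, h1, Category.assoc, ← MonoidalCategory.id_tensorHom,
    MonoidalCategory.tensorHom_comp_tensorHom, Category.id_comp]

theorem tensor_zsmul {X Y Z W : C} (f : X ⟶ Y) (c : ℤ) (g : Z ⟶ W) :
    f ⊗ₘ (c • g) = c • (f ⊗ₘ g) :=
  map_zsmul (AddMonoidHom.mk' (fun g : Z ⟶ W => f ⊗ₘ g)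
    (fun a b => MonoidalPreadditive.tensor_add f a b)) c g

theorem insAll_gwords (hq : (β_ A A).hom ≫ q = q) (hx : x ≫ fnl q x = 0) (r : ℕ) :
    ∀ n : ℕ, insAll x n ≫ gwords q x (n + 1) r = (2 * (2 * (r : ℤ) - n)) • gwords q x n r := by
  induction r with
  | zero =>
    intro n
    cases n with
    | zero => simp [gwords]
    | succ n => simp [gwords]
  | succ r ih =>
    intro n
    match n with
    | 0 =>
      change ins x (𝟙_ C) ≫ (fnl q x ⊗ₘ gwords q x 0 r) = _ • (0 : tpow A 0 ⟶ tpow L (r + 1))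
      rw [ins_fnl hx, smul_zero]
    | 1 =>
      have h0 := ih 0
      change ins x (𝟙_ C) ≫ gwords q x 1 r = _ at h0
      change (ins x (A ⊗ 𝟙_ C) + A ◁ ins x (𝟙_ C)) ≫ ((fnl q x ⊗ₘ gwords q x 1 r) +
        (α_ A A (tpow A 0)).inv ≫ (q ⊗ₘ gwords q x 0 r)) = _ • (fnl q x ⊗ₘ gwords q x 0 r)
      rw [Preadditive.add_comp, Preadditive.comp_add, Preadditive.comp_add, ins_fnl hx,
        whisker_fnl, h0]
      have h1 : ins x (A ⊗ 𝟙_ C) ≫ (α_ A A (tpow A 0)).inv ≫ (q ⊗ₘ gwords q x 0 r) =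
        fnl q x ⊗ₘ gwords q x 0 r := ins_q _
      have h2 : A ◁ ins x (𝟙_ C) ≫ (α_ A A (tpow A 0)).inv ≫ (q ⊗ₘ gwords q x 0 r) =
        fnl q x ⊗ₘ gwords q x 0 r := ins_q2 hq _
      rw [h1, h2, tensor_zsmul, zero_add]
      have h3 : ∀ X : (A ⊗ tpow A 0 ⟶ L ⊗ tpow L r), X + ((2 * (2 * (r : ℤ) - (0 : ℕ))) • X + X) =
          (2 * (2 * ((r + 1 : ℕ) : ℤ) - (1 : ℕ))) • X := by
        intro X
        push_cast
        module
      exact h3 _
    | n + 2 =>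
      have h0 := ih (n + 1)
      have h00 := ih n
      change (ins x (A ⊗ tpow A (n + 1)) + A ◁ insAll x (n + 1)) ≫
        ((fnl q x ⊗ₘ gwords q x (n + 2) r) +
        (α_ A A (tpow A (n + 1))).inv ≫ (q ⊗ₘ gwords q x (n + 1) r)) =
        _ • ((fnl q x ⊗ₘ gwords q x (n + 1) r) +
        (α_ A A (tpow A n)).inv ≫ (q ⊗ₘ gwords q x n r))
      rw [Preadditive.add_comp, Preadditive.comp_add, Preadditive.comp_add, ins_fnl hx,
        whisker_fnl, h0]
      have h1 : ins x (A ⊗ tpow A (n + 1)) ≫ (α_ A A (tpow A (n + 1))).inv ≫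
        (q ⊗ₘ gwords q x (n + 1) r) = fnl q x ⊗ₘ gwords q x (n + 1) r := ins_q _
      have h2 : A ◁ insAll x (n + 1) ≫ (α_ A A (tpow A (n + 1))).inv ≫
          (q ⊗ₘ gwords q x (n + 1) r) = (fnl q x ⊗ₘ gwords q x (n + 1) r) +
          (2 * (2 * (r : ℤ) - n)) • ((α_ A A (tpow A n)).inv ≫ (q ⊗ₘ gwords q x n r)) := by
        have h3 : A ◁ insAll x (n + 1) = A ◁ ins x (tpow A (n + 1)) + A ◁ A ◁ insAll x n := by
          change A ◁ (ins x (tpow A (n + 1)) + A ◁ insAll x n) = _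
          rw [MonoidalPreadditive.whiskerLeft_add]
        rw [h3, Preadditive.add_comp]
        have h4 : A ◁ ins x (tpow A (n + 1)) ≫ (α_ A A (tpow A (n + 1))).inv ≫
          (q ⊗ₘ gwords q x (n + 1) r) = fnl q x ⊗ₘ gwords q x (n + 1) r := ins_q2 hq _
        have h5 : A ◁ A ◁ insAll x n ≫ (α_ A A (tpow A (n + 1))).inv ≫
          (q ⊗ₘ gwords q x (n + 1) r) =
          (α_ A A (tpow A n)).inv ≫ (q ⊗ₘ (insAll x n ≫ gwords q x (n + 1) r)) := whisker_q _ _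
        rw [h4, h5, h00, tensor_zsmul, Preadditive.comp_zsmul]
      rw [h1, h2, tensor_zsmul, zero_add]
      have h6 : ∀ X Y : (A ⊗ A ⊗ tpow A n ⟶ L ⊗ tpow L r),
          X + ((2 * (2 * (r : ℤ) - ((n + 1 : ℕ) : ℤ))) • X + (X + (2 * (2 * (r : ℤ) - n)) • Y)) =
          (2 * (2 * ((r + 1 : ℕ) : ℤ) - ((n + 2 : ℕ) : ℤ))) • (X + Y) := by
        intro X Y
        push_cast
        module
      exact h6 _ _

theorem gwords_eq_zero : ∀ (n r : ℕ), n < r → gwords q x n r = 0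
  | 0, 0, h => absurd h (lt_irrefl _)
  | 0, _ + 1, _ => rfl
  | _ + 1, 0, h => absurd h (by omega)
  | 1, r + 1, h => by
    change fnl q x ⊗ₘ gwords q x 0 r = 0
    rw [gwords_eq_zero 0 r (by omega), MonoidalPreadditive.tensor_zero]
  | n + 2, r + 1, h => by
    change (fnl q x ⊗ₘ gwords q x (n + 1) r) +
      (α_ A A (tpow A n)).inv ≫ (q ⊗ₘ gwords q x n r) = 0
    rw [gwords_eq_zero (n + 1) r (by omega), gwords_eq_zero n r (by omega),
      MonoidalPreadditive.tensor_zero, MonoidalPreadditive.tensor_zero, Limits.comp_zero,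
      add_zero]

theorem gwords_diag : ∀ n : ℕ, gwords q x n n = mpow (fnl q x) n
  | 0 => rfl
  | 1 => rfl
  | n + 2 => by
    change (fnl q x ⊗ₘ gwords q x (n + 1) (n + 1)) +
      (α_ A A (tpow A n)).inv ≫ (q ⊗ₘ gwords q x n (n + 1)) = fnl q x ⊗ₘ mpow (fnl q x) (n + 1)
    rw [gwords_diag (n + 1), gwords_eq_zero n (n + 1) (by omega),
      MonoidalPreadditive.tensor_zero, Limits.comp_zero, add_zero]

theorem swapL_mpow (hL : (β_ L L).hom = 𝟙 _) (φ : A ⟶ L) {T T' : C} (g : T ⟶ T') :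
    swapL A A T ≫ (φ ⊗ₘ (φ ⊗ₘ g)) = φ ⊗ₘ (φ ⊗ₘ g) := by
  rw [swapL_tensorHom]
  unfold swapL
  rw [hL]
  simp

theorem insSum_mpow (hL : (β_ L L).hom = 𝟙 _) (φ : A ⟶ L) (n : ℕ) :
    insSum A n ≫ mpow φ (n + 1) = ((n + 1 : ℕ) : ℤ) • mpow φ (n + 1) := by
  induction n with
  | zero =>
    change 𝟙 _ ≫ mpow φ 1 = _
    rw [Category.id_comp]
    simp
  | succ n ih =>
    change (𝟙 _ + swapL A A (tpow A n) ≫ A ◁ insSum A n) ≫ (φ ⊗ₘ mpow φ (n + 1)) =
      _ • (φ ⊗ₘ mpow φ (n + 1))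
    have h1 : A ◁ insSum A n ≫ (φ ⊗ₘ mpow φ (n + 1)) =
        ((n + 1 : ℕ) : ℤ) • (φ ⊗ₘ mpow φ (n + 1)) := by
      rw [← MonoidalCategory.id_tensorHom, MonoidalCategory.tensorHom_comp_tensorHom,
        Category.id_comp, ih, tensor_zsmul]
    have h2 : swapL A A (tpow A n) ≫ (φ ⊗ₘ mpow φ (n + 1)) = φ ⊗ₘ mpow φ (n + 1) :=
      swapL_mpow hL φ (mpow φ n)
    rw [Preadditive.add_comp, Category.id_comp, Category.assoc, h1, Preadditive.comp_zsmul, h2]
    push_cast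
    module

theorem symmetrizer_mpow (hL : (β_ L L).hom = 𝟙 _) (φ : A ⟶ L) (n : ℕ) :
    symmetrizer A n ≫ mpow φ n = ((n.factorial : ℕ) : ℤ) • mpow φ n := by
  induction n with
  | zero =>
    change 𝟙 _ ≫ mpow φ 0 = _
    rw [Category.id_comp]
    simp
  | succ n ih =>
    change (A ◁ symmetrizer A n ≫ insSum A n) ≫ mpow φ (n + 1) = _
    rw [Category.assoc, insSum_mpow hL, Preadditive.comp_zsmul]
    have h1 : A ◁ symmetrizer A n ≫ mpow φ (n + 1) =
        ((n.factorial : ℕ) : ℤ) • mpow φ (n + 1) := by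
      change A ◁ symmetrizer A n ≫ (φ ⊗ₘ mpow φ n) = _ • (φ ⊗ₘ mpow φ n)
      rw [← MonoidalCategory.id_tensorHom, MonoidalCategory.tensorHom_comp_tensorHom,
        Category.id_comp, ih, tensor_zsmul]
    rw [h1, smul_smul, Nat.factorial_succ]
    push_cast
    rfl

end pairing

end Pool.Agent.H71.SN
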