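import Pool.Agent.H71.SN.Odd

open CategoryTheory MonoidalCategory

set_option linter.unusedSectionVars false

namespace Pool.Agent.H71.SN

universe v u

section

variable {F : Type*} [Field F] [CharZero F]
  {C : Type u} [Category.{v} C] [Preadditive C] [Linear F C] [MonoidalCategory C]
  [BraidedCategory C] [MonoidalPreadditive C]

variable {A L : C} {q : A ⊗ A ⟶ L} {x : 𝟙_ C ⟶ A}

theorem zsmul_hom_eq_zero (F : Type*) [Field F] [CharZero F] [Linear F C] {X Y : C} {c : ℤ}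
    (hc : c ≠ 0) {f : X ⟶ Y} (h : c • f = 0) : f = 0 := by
  have h1 : ((c : F)) • f = 0 := by rw [Int.cast_smul_eq_zsmul]; exact h
  rcases smul_eq_zero.1 h1 with h2 | h2
  · exact absurd (Int.cast_eq_zero.1 h2) hc
  · exact h2

/-- descending induction -/
theorem symmetrizer_gwords (F : Type*) [Field F] [CharZero F] [Linear F C]
    (hq : (β_ A A).hom ≫ q = q) (hx : x ≫ fnl q x = 0) (N : ℕ)
    (hs : symmetrizer A (2 * N) = 0) :
    ∀ k : ℕ, k ≤ N → symmetrizer A (2 * N - k) ≫ gwords q x (2 * N - k) N = 0 := by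
  intro k
  induction k with
  | zero =>
    intro _
    rw [Nat.sub_zero, hs, Limits.zero_comp]
  | succ k ih =>
    intro hk
    have h1 := ih (by omega)
    obtain ⟨n, hn⟩ : ∃ n, n = 2 * N - (k + 1) := ⟨_, rfl⟩
    have hn1 : 2 * N - k = n + 1 := by omega
    rw [hn1] at h1
    rw [← hn]
    have h2 : ins x (tpow A n) ≫ symmetrizer A (n + 1) ≫ gwords q x (n + 1) N = 0 := by
      rw [h1, Limits.comp_zero]
    rw [← Category.assoc, ins_symmetrizer, Category.assoc, insAll_gwords hq hx,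
      Preadditive.comp_zsmul] at h2
    refine zsmul_hom_eq_zero F ?_ h2
    have : (n : ℤ) = 2 * N - (k + 1) := by omega
    omega

theorem mpow_fnl_eq_zero (F : Type*) [Field F] [CharZero F] [Linear F C]
    (hq : (β_ A A).hom ≫ q = q) (hx : x ≫ fnl q x = 0)
    (hL : (β_ L L).hom = 𝟙 _) (N : ℕ) (hs : symmetrizer A (2 * N) = 0) :
    mpow (fnl q x) N = 0 := by
  have h1 := symmetrizer_gwords F hq hx N hs N le_rfl
  have h2 : 2 * N - N = N := by omega
  rw [h2, gwords_diag, symmetrizer_mpow hL] at h1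
  exact zsmul_hom_eq_zero F (by exact_mod_cast Nat.factorial_ne_zero N) h1

end

section

variable {C : Type u} [Category.{v} C] [Preadditive C] [MonoidalCategory C]
  [SymmetricCategory C] [MonoidalPreadditive C]

variable {A L : C} {q : A ⊗ A ⟶ L} {x : 𝟙_ C ⟶ A}

/-- `q(-, x) = q(x, -)` -/
theorem fnl_symm (hq : (β_ A A).hom ≫ q = q) : (ρ_ A).inv ≫ A ◁ x ≫ q = fnl q x := by
  unfold fnl ins
  conv_rhs => rw [← hq]
  rw [Category.assoc, BraidedCategory.braiding_naturality_left_assoc]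
  rw [← Category.assoc (λ_ A).inv]
  congr 1
  rw [braiding_tensorUnit_left]
  simp

/-- if `ω` is a copairing for `q` then `x` is recovered from `q(x, -)` -/
theorem copair_fnl (hq : (β_ A A).hom ≫ q = q) (w : L ⟶ A ⊗ A)
    (hw : w ▷ A ≫ (α_ A A A).hom ≫ A ◁ q = (β_ L A).hom) :
    w ≫ A ◁ fnl q x = ins x L := by
  have h1 : (ρ_ L).inv ≫ L ◁ x ≫ w ▷ A ≫ (α_ A A A).hom ≫ A ◁ q =
      (ρ_ L).inv ≫ L ◁ x ≫ (β_ L A).hom := by rw [hw]
  have h2 : (ρ_ L).inv ≫ L ◁ x ≫ (β_ L A).hom = ins x L := by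
    rw [BraidedCategory.braiding_naturality_right]
    unfold ins
    rw [← Category.assoc]
    congr 1
    rw [braiding_tensorUnit_right]
    simp
  rw [h2] at h1
  rw [← h1, ← fnl_symm hq]
  rw [whisker_exchange_assoc]
  simp

/-- exchange with general objects -/
theorem ins_of_whisker {A S T L : C} (x : 𝟙_ C ⟶ A) (g : S ⟶ T)
    (h : L ◁ g ≫ ins x (L ⊗ T) = 0) : L ◁ (g ≫ ins x T) = 0 := by
  rw [MonoidalCategory.whiskerLeft_comp, ← ins_swapL, ← Category.assoc, h, Limits.zero_comp]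

/-- from `q(x, -) ⊗ g = 0` to `x ⊗ g = 0` -/
theorem ins_eq_zero_of_fnl (hq : (β_ A A).hom ≫ q = q) (w : L ⟶ A ⊗ A)
    (hw : w ▷ A ≫ (α_ A A A).hom ≫ A ◁ q = (β_ L A).hom)
    (hinv : ∀ {X Y : C} (f : X ⟶ Y), L ◁ f = 0 → f = 0)
    {S T : C} (g : S ⟶ T) (h : fnl q x ⊗ₘ g = 0) : g ≫ ins x T = 0 := by
  apply hinv
  apply ins_of_whisker
  have h1 : A ◁ (fnl q x ⊗ₘ g) = 0 := by rw [h, MonoidalPreadditive.whiskerLeft_zero]
  have h2 : (α_ A A S).hom ≫ A ◁ (fnl q x ⊗ₘ g) ≫ (α_ A L T).inv = 0 := by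
    rw [h1, Limits.zero_comp, Limits.comp_zero]
  have h3 : (α_ A A S).hom ≫ A ◁ (fnl q x ⊗ₘ g) ≫ (α_ A L T).inv = (A ◁ fnl q x) ⊗ₘ g := by
    rw [← MonoidalCategory.id_tensorHom, ← MonoidalCategory.id_tensorHom,
      associator_inv_naturality, Iso.hom_inv_id_assoc]
  rw [h3] at h2
  have h4 : w ▷ S ≫ ((A ◁ fnl q x) ⊗ₘ g) = 0 := by rw [h2, Limits.comp_zero]
  rw [← MonoidalCategory.tensorHom_id, MonoidalCategory.tensorHom_comp_tensorHom,
    copair_fnl hq w hw, Category.id_comp] at h4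
  rw [MonoidalCategory.tensorHom_def'] at h4
  rw [ins_assoc, ← Category.assoc, h4, Limits.zero_comp]

theorem mpow_to_epow (hq : (β_ A A).hom ≫ q = q) (w : L ⟶ A ⊗ A)
    (hw : w ▷ A ≫ (α_ A A A).hom ≫ A ◁ q = (β_ L A).hom)
    (hinv : ∀ {X Y : C} (f : X ⟶ Y), L ◁ f = 0 → f = 0) (N : ℕ) :
    ∀ k : ℕ, mpow (fnl q x) N ⊗ₘ epow x k = 0 → epow x (N + k) = 0 := by
  induction N with
  | zero =>
    intro k hk
    rw [Nat.zero_add]
    change 𝟙 (𝟙_ C) ⊗ₘ epow x k = 0 at hk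
    rw [MonoidalCategory.id_tensorHom] at hk
    have := congrArg (fun f => (λ_ _).inv ≫ f ≫ (λ_ _).hom) hk
    simpa using this
  | succ N ih =>
    intro k hk
    have h1 : fnl q x ⊗ₘ (mpow (fnl q x) N ⊗ₘ epow x k) = 0 := by
      have h2 : (fnl q x ⊗ₘ mpow (fnl q x) N) ⊗ₘ epow x k = 0 := hk
      have h3 : (α_ _ _ _).inv ≫ ((fnl q x ⊗ₘ mpow (fnl q x) N) ⊗ₘ epow x k) ≫
        (α_ _ _ _).hom = 0 := by rw [h2, Limits.zero_comp, Limits.comp_zero]
      rw [associator_naturality, Iso.inv_hom_id_assoc] at h3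
      exact h3
    have h4 := ins_eq_zero_of_fnl hq w hw hinv _ h1
    have h5 : mpow (fnl q x) N ⊗ₘ epow x (k + 1) = 0 := by
      rw [← epow_ins]
      have h6 : (mpow (fnl q x) N ⊗ₘ (epow x k ≫ ins x (tpow A k))) =
          (mpow (fnl q x) N ⊗ₘ epow x k) ≫ (tpow L N ◁ ins x (tpow A k)) := by
        rw [← MonoidalCategory.id_tensorHom, MonoidalCategory.tensorHom_comp_tensorHom,
          Category.comp_id]
      rw [h6, ← ins_swapL, ← Category.assoc, h4, Limits.zero_comp]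
    have h7 := ih (k + 1) h5
    have h8 : N + 1 + k = N + (k + 1) := by omega
    rw [h8]
    exact h7

/-- **Sharp smash-nilpotence exponent for odd self-dual objects.** -/
theorem odd_epow_eq_zero {F : Type*} [Field F] [CharZero F] [Linear F C]
    (hq : (β_ A A).hom ≫ q = q) (w : L ⟶ A ⊗ A)
    (hw : w ▷ A ≫ (α_ A A A).hom ≫ A ◁ q = (β_ L A).hom)
    (hinv : ∀ {X Y : C} (f : X ⟶ Y), L ◁ f = 0 → f = 0)
    (hL : (β_ L L).hom = 𝟙 _) (N : ℕ) (hs : symmetrizer A (2 * N) = 0)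
    (hx : emul x x ≫ q = 0) : epow x N = 0 := by
  have hx' : x ≫ fnl q x = 0 := by
    rw [← hx]
    unfold fnl
    rw [← Category.assoc]
    congr 1
    rw [ins_naturality]
    unfold ins emul
    rw [MonoidalCategory.tensorHom_def, Category.assoc]
  have h1 := mpow_fnl_eq_zero F hq hx' hL N hs
  have h2 := mpow_to_epow (x := x) hq w hw hinv N 0 (by
    rw [h1, MonoidalPreadditive.zero_tensor])
  exact h2

end

end Pool.Agent.H71.SN
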