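import Pool.Agent.H71.SN.OddFin

open CategoryTheory MonoidalCategory

set_option linter.unusedSectionVars false

namespace Pool.Agent.H71.SN

universe v u

section defs

variable (F : Type*) [Field F] {C : Type u} [Category.{v} C] [Preadditive C] [Linear F C]
  [MonoidalCategory C] [MonoidalPreadditive C] [MonoidalLinear F C]

/-- The subspace of numerically trivial elements `𝟙 ⟶ A`. -/
def numTriv (A : C) : Submodule F (𝟙_ C ⟶ A) where
  carrier := {x | NumTriv x}
  add_mem' := by
    intro x y hx hy g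
    rw [Preadditive.add_comp, hx g, hy g, add_zero]
  zero_mem' := by
    intro g
    rw [Limits.zero_comp]
  smul_mem' := by
    intro c x hx g
    rw [Linear.smul_comp, hx g, smul_zero]

/-- The exterior product `(a, b) ↦ a ⊗ b` as a bilinear map. -/
def emulB (A B : C) : (𝟙_ C ⟶ A) →ₗ[F] (𝟙_ C ⟶ B) →ₗ[F] (𝟙_ C ⟶ A ⊗ B) :=
  LinearMap.mk₂ F (fun a b => emul a b) (fun a a' b => add_emul a a' b)
    (fun c a b => smul_emul c a b) (fun a b b' => emul_add a b b') (fun c a b => emul_smul a c b)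

/-- The span of all exterior products `a_1 ⊗ ⋯ ⊗ a_n` with `a_i` in the subspace `W`. -/
def extPow {A : C} (W : Submodule F (𝟙_ C ⟶ A)) : (n : ℕ) → Submodule F (𝟙_ C ⟶ tpow A n)
  | 0 => Submodule.span F {𝟙 (𝟙_ C)}
  | n + 1 => Submodule.map₂ (emulB F A (tpow A n)) W (extPow W n)

end defs

section

variable {F : Type*} [Field F] {C : Type u} [Category.{v} C] [Preadditive C] [Linear F C]
  [MonoidalCategory C] [MonoidalPreadditive C] [MonoidalLinear F C]

@[simp] theorem emulB_apply {A B : C} (a : 𝟙_ C ⟶ A) (b : 𝟙_ C ⟶ B) :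
    emulB F A B a b = emul a b := rfl

theorem mem_numTriv {A : C} (x : 𝟙_ C ⟶ A) : x ∈ numTriv F A ↔ NumTriv x := Iff.rfl

instance extPow_finite {A : C} (W : Submodule F (𝟙_ C ⟶ A)) [Module.Finite F W] (n : ℕ) :
    Module.Finite F (extPow F W n) := by
  induction n with
  | zero =>
    change Module.Finite F (Submodule.span F {𝟙 (𝟙_ C)})
    infer_instance
  | succ n ih =>
    change Module.Finite F (Submodule.map₂ (emulB F A (tpow A n)) W (extPow F W n))
    exact Module.Finite.iff_fg.2 (Submodule.FG.map₂ _ (Module.Finite.iff_fg.1 inferInstance)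
      (Module.Finite.iff_fg.1 ih))

/-- prefixed version -/
def preExt {A Y : C} (W : Submodule F (𝟙_ C ⟶ A)) (S : Submodule F (𝟙_ C ⟶ Y)) (n : ℕ) :
    Submodule F (𝟙_ C ⟶ Y ⊗ tpow A n) :=
  Submodule.map₂ (emulB F Y (tpow A n)) S (extPow F W n)

instance preExt_finite {A Y : C} (W : Submodule F (𝟙_ C ⟶ A)) [Module.Finite F W]
    (S : Submodule F (𝟙_ C ⟶ Y)) [Module.Finite F S] (n : ℕ) :
    Module.Finite F (preExt W S n) :=
  Module.Finite.iff_fg.2 (Submodule.FG.map₂ _ (Module.Finite.iff_fg.1 inferInstance)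
    (Module.Finite.iff_fg.1 inferInstance))

/-- product of two spaces of elements -/
def pr {A Y : C} (S : Submodule F (𝟙_ C ⟶ Y)) (W : Submodule F (𝟙_ C ⟶ A)) :
    Submodule F (𝟙_ C ⟶ Y ⊗ A) := Submodule.map₂ (emulB F Y A) S W

instance pr_finite {A Y : C} (S : Submodule F (𝟙_ C ⟶ Y)) [Module.Finite F S]
    (W : Submodule F (𝟙_ C ⟶ A)) [Module.Finite F W] : Module.Finite F (pr S W) :=
  Module.Finite.iff_fg.2 (Submodule.FG.map₂ _ (Module.Finite.iff_fg.1 inferInstance)
    (Module.Finite.iff_fg.1 inferInstance))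

/-- postcomposition -/
def post (F : Type*) [Field F] {C : Type u} [Category.{v} C] [Preadditive C] [Linear F C]
    {X Y Z : C} (f : Y ⟶ Z) : (X ⟶ Y) →ₗ[F] (X ⟶ Z) where
  toFun g := g ≫ f
  map_add' a b := by rw [Preadditive.add_comp]
  map_smul' c a := by rw [Linear.smul_comp, RingHom.id_apply]

@[simp] theorem post_apply {X Y Z : C} (f : Y ⟶ Z) (g : X ⟶ Y) : post F f g = g ≫ f := rfl

theorem emul_insmid {Y A T : C} (y : 𝟙_ C ⟶ Y) (b : 𝟙_ C ⟶ A) (t : 𝟙_ C ⟶ T) :
    emul y t ≫ Y ◁ ins b T = emul y (emul b t) := by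
  have h : emul b t = t ≫ ins b T := by
    rw [ins_naturality]
    unfold emul ins
    rw [MonoidalCategory.tensorHom_def]
    simp
  rw [h]
  unfold emul
  rw [← MonoidalCategory.id_tensorHom, Category.assoc, MonoidalCategory.tensorHom_comp_tensorHom,
    Category.comp_id]

/-- points of a dual space are separated by finitely many vectors -/
theorem exists_dual_system {V : Type*} [AddCommGroup V] [Module F V]
    (R : Submodule F (Module.Dual F V)) [Module.Finite F R] {m : ℕ}
    (r : Module.Basis (Fin m) F R) :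
    ∃ g : Fin m → V, ∀ i j, (r i : Module.Dual F V) (g j) = if i = j then 1 else 0 := by
  classical
  have hfree : Module.Free F R := Module.Free.of_basis r
  let E : V →ₗ[F] Module.Dual F R :=
    { toFun := fun v =>
        { toFun := fun s => (s : Module.Dual F V) v
          map_add' := fun _ _ => rfl
          map_smul' := fun _ _ => rfl }
      map_add' := fun v w => by
        ext s
        exact map_add (s : Module.Dual F V) v w
      map_smul' := fun c v => by
        ext s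
        exact map_smul (s : Module.Dual F V) c v }
  have hE : LinearMap.range E = ⊤ := by
    by_contra hne
    obtain ⟨f, hf0, hf⟩ := Submodule.exists_le_ker_of_lt_top (LinearMap.range E)
      (lt_top_iff_ne_top.2 hne)
    obtain ⟨s, hs⟩ := (Module.evalEquiv F R).surjective f
    apply hf0
    have hs0 : s = 0 := by
      apply Subtype.ext
      ext v
      have h1 : f (E v) = 0 := hf ⟨v, rfl⟩
      rw [← hs] at h1
      exact h1
    rw [← hs, hs0, map_zero]
  have h2 : ∀ j, ∃ v, E v = r.coord j := fun j =>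
    LinearMap.range_eq_top.1 hE (r.coord j)
  choose g hg using h2
  refine ⟨g, fun i j => ?_⟩
  have h3 := LinearMap.congr_fun (hg j) (r i)
  have h4 : E (g j) (r i) = (r i : Module.Dual F V) (g j) := rfl
  rw [← h4, h3]
  simp [Finsupp.single_apply]

variable (h1 : 𝟙 (𝟙_ C) ≠ 0) (hunit : ∀ z : 𝟙_ C ⟶ 𝟙_ C, ∃ c : F, z = c • 𝟙 (𝟙_ C))

include h1 hunit in
/-- the coefficient of a scalar -/
theorem exists_coef : ∃ κ : (𝟙_ C ⟶ 𝟙_ C) →ₗ[F] F, ∀ z, z = κ z • 𝟙 (𝟙_ C) := by
  choose k hk using hunit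
  have huniq : ∀ c d : F, c • 𝟙 (𝟙_ C) = d • 𝟙 (𝟙_ C) → c = d := by
    intro c d h
    have h2 : (c - d) • 𝟙 (𝟙_ C) = 0 := by rw [sub_smul, h, sub_self]
    rcases smul_eq_zero.1 h2 with h3 | h3
    · exact sub_eq_zero.1 h3
    · exact absurd h3 h1
  refine ⟨{ toFun := k, map_add' := ?_, map_smul' := ?_ }, hk⟩
  · intro x y
    apply huniq
    rw [add_smul, ← hk, ← hk, ← hk]
  · intro c x
    apply huniq
    rw [RingHom.id_apply, smul_eq_mul, mul_smul, ← hk, ← hk]

include h1 hunit in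
/-- adapted basis of a finite-dimensional space of elements -/
theorem exists_adapted {A : C} (W : Submodule F (𝟙_ C ⟶ A)) [Module.Finite F W] (ρ : ℕ)
    (hρ : Module.finrank F (W ⊓ numTriv F A : Submodule F (𝟙_ C ⟶ A)) + ρ =
      Module.finrank F W) :
    ∃ (b : Fin ρ → (𝟙_ C ⟶ A)) (g : Fin ρ → (A ⟶ 𝟙_ C)),
      (∀ j, b j ∈ W) ∧ (∀ i j, b i ≫ g j = if i = j then 𝟙 (𝟙_ C) else 0) ∧
      ∀ a ∈ W, ∃ a0 ∈ (W ⊓ numTriv F A : Submodule F (𝟙_ C ⟶ A)), ∃ c : Fin ρ → F,
        a = a0 + ∑ j, c j • b j := by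
  classical
  obtain ⟨κ, hκ⟩ := exists_coef h1 hunit
  let B : W →ₗ[F] Module.Dual F (A ⟶ 𝟙_ C) :=
    { toFun := fun w =>
        { toFun := fun g => κ ((w : 𝟙_ C ⟶ A) ≫ g)
          map_add' := fun g g' => by rw [Preadditive.comp_add, map_add]
          map_smul' := fun c g => by rw [Linear.comp_smul, map_smul, RingHom.id_apply] }
      map_add' := fun w w' => by
        ext g
        change κ (((w : 𝟙_ C ⟶ A) + (w' : 𝟙_ C ⟶ A)) ≫ g) = _
        rw [Preadditive.add_comp, map_add]
        rfl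
      map_smul' := fun c w => by
        ext g
        change κ ((c • (w : 𝟙_ C ⟶ A)) ≫ g) = _
        rw [Linear.smul_comp, map_smul]
        rfl }
  have hBapp : ∀ (w : W) (g : A ⟶ 𝟙_ C), B w g = κ ((w : 𝟙_ C ⟶ A) ≫ g) := fun _ _ => rfl
  have hker : LinearMap.ker B = Submodule.comap W.subtype (numTriv F A) := by
    ext w
    rw [LinearMap.mem_ker, Submodule.mem_comap]
    constructor
    · intro h g
      have h2 := LinearMap.congr_fun h g
      rw [hBapp] at h2
      change (w : 𝟙_ C ⟶ A) ≫ g = 0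
      rw [hκ ((w : 𝟙_ C ⟶ A) ≫ g), h2, LinearMap.zero_apply, zero_smul]
    · intro h
      ext g
      rw [hBapp]
      have h2 : (w : 𝟙_ C ⟶ A) ≫ g = 0 := h g
      rw [h2, map_zero]
      rfl
  have hfr : Module.finrank F (LinearMap.ker B) =
      Module.finrank F (W ⊓ numTriv F A : Submodule F (𝟙_ C ⟶ A)) := by
    rw [hker]
    have e : (Submodule.comap W.subtype (numTriv F A)).map W.subtype = W ⊓ numTriv F A := by
      rw [Submodule.map_comap_subtype]
    rw [← e]
    exact (Submodule.finrank_map_subtype_eq _ _).symm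
  have hrank := LinearMap.finrank_range_add_finrank_ker B
  have hm : Module.finrank F (LinearMap.range B) = ρ := by omega
  have hfree : Module.Free F (LinearMap.range B) :=
    Module.Free.of_basis (Module.Basis.ofVectorSpace F (LinearMap.range B))
  let r : Module.Basis (Fin ρ) F (LinearMap.range B) := Module.finBasisOfFinrankEq F _ hm
  obtain ⟨g, hg⟩ := exists_dual_system (LinearMap.range B) r
  choose w hw using fun j => (r j).2
  refine ⟨fun j => (w j : 𝟙_ C ⟶ A), g, fun j => (w j).2, ?_, ?_⟩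
  · intro i j
    have h2 := hg i j
    rw [← hw i, hBapp] at h2
    change (w i : 𝟙_ C ⟶ A) ≫ g j = _
    rw [hκ ((w i : 𝟙_ C ⟶ A) ≫ g j), h2]
    split_ifs <;> simp
  · intro a ha
    let c : Fin ρ → F := fun j => r.repr ⟨B ⟨a, ha⟩, ⟨_, rfl⟩⟩ j
    have h2 : B ⟨a, ha⟩ = ∑ j, c j • B (w j) := by
      have h3 := r.sum_repr ⟨B ⟨a, ha⟩, ⟨_, rfl⟩⟩
      have h4 : B ⟨a, ha⟩ = ((∑ j, c j • r j : LinearMap.range B) :
          Module.Dual F (A ⟶ 𝟙_ C)) := (congrArg Subtype.val h3).symm
      rw [h4, AddSubmonoidClass.coe_finsetSum]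
      refine Finset.sum_congr rfl fun j _ => ?_
      rw [Submodule.coe_smul, hw j]
    have h5 : (⟨a, ha⟩ - ∑ j, c j • w j : W) ∈ LinearMap.ker B := by
      rw [LinearMap.mem_ker, map_sub, map_sum, h2, sub_eq_zero]
      refine Finset.sum_congr rfl fun j _ => ?_
      rw [map_smul]
    rw [hker, Submodule.mem_comap] at h5
    refine ⟨((⟨a, ha⟩ - ∑ j, c j • w j : W) : 𝟙_ C ⟶ A), ⟨(⟨a, ha⟩ - ∑ j, c j • w j : W).2, h5⟩,
      c, ?_⟩
    simp

end

end Pool.Agent.H71.SN
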