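import Pool.Agent.H71.SN.Rank

open CategoryTheory MonoidalCategory

set_option linter.unusedSectionVars false

namespace Pool.Agent.H71.SN

universe v u

variable {F : Type*} [Field F] {C : Type u} [Category.{v} C] [Preadditive C] [Linear F C]
  [MonoidalCategory C] [MonoidalPreadditive C] [MonoidalLinear F C]

/-- the recursion for the dimensions of the spaces of exterior products -/
theorem finrank_preExt_succ {A : C} (W W0 : Submodule F (𝟙_ C ⟶ A)) [Module.Finite F W]
    [Module.Finite F W0] (hW0 : W0 ≤ W) {ρ : ℕ} (b : Fin ρ → (𝟙_ C ⟶ A))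
    (g : Fin ρ → (A ⟶ 𝟙_ C)) (hb : ∀ j, b j ∈ W)
    (hbg : ∀ i j, b i ≫ g j = if i = j then 𝟙 (𝟙_ C) else 0)
    (hW0g : ∀ a ∈ W0, ∀ j, a ≫ g j = 0)
    (hdec : ∀ a ∈ W, ∃ a0 ∈ W0, ∃ c : Fin ρ → F, a = a0 + ∑ j, c j • b j)
    {Y : C} (S : Submodule F (𝟙_ C ⟶ Y)) [Module.Finite F S] (n : ℕ) :
    Module.finrank F (preExt W S (n + 1)) =
      Module.finrank F (preExt W (pr S W0) n) + ρ * Module.finrank F (preExt W S n) := by
  classical
  let T := tpow A n
  let Ψ : Fin ρ → ((𝟙_ C ⟶ Y ⊗ T) →ₗ[F] (𝟙_ C ⟶ Y ⊗ (A ⊗ T))) := fun j => post F (Y ◁ ins (b j) T)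
  let Q : Fin ρ → ((𝟙_ C ⟶ Y ⊗ (A ⊗ T)) →ₗ[F] (𝟙_ C ⟶ Y ⊗ T)) :=
    fun j => post F (Y ◁ ((g j ▷ T) ≫ (λ_ T).hom))
  let Φ : (preExt W (pr S W0) n × (Fin ρ → preExt W S n)) →ₗ[F] (𝟙_ C ⟶ Y ⊗ (A ⊗ T)) :=
    ((post F (α_ Y A T).hom).comp (Submodule.subtype _)).comp (LinearMap.fst F _ _) +
    ∑ j, (((Ψ j).comp (Submodule.subtype _)).comp (LinearMap.proj j)).comp (LinearMap.snd F _ _)
  have hΦ : ∀ p, Φ p = (p.1 : 𝟙_ C ⟶ (Y ⊗ A) ⊗ T) ≫ (α_ Y A T).hom +
      ∑ j, Ψ j (p.2 j : 𝟙_ C ⟶ Y ⊗ T) := by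
    intro p
    simp only [Φ, LinearMap.add_apply, LinearMap.sum_apply, LinearMap.comp_apply]
    rfl
  -- contractions
  have hQΨ : ∀ i j (z : 𝟙_ C ⟶ Y ⊗ T), Q j (Ψ i z) = if i = j then z else 0 := by
    intro i j z
    change (z ≫ Y ◁ ins (b i) T) ≫ Y ◁ ((g j ▷ T) ≫ (λ_ T).hom) = _
    have h1 : ∀ (T' : C), ins (b i) T' ≫ g j ▷ T' ≫ (λ_ T').hom =
        (if i = j then 𝟙 T' else (0 : T' ⟶ T')) := by
      intro T'
      unfold ins
      rw [Category.assoc, ← comp_whiskerRight_assoc, hbg]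
      split_ifs
      · simp
      · simp
    rw [Category.assoc, ← MonoidalCategory.whiskerLeft_comp, h1]
    split_ifs
    · rw [MonoidalCategory.whiskerLeft_id, Category.comp_id]
    · rw [MonoidalPreadditive.whiskerLeft_zero, Limits.comp_zero]
  have hQ0 : ∀ j, ∀ z ∈ preExt W (pr S W0) n, Q j (z ≫ (α_ Y A T).hom) = 0 := by
    intro j z hz
    have hle : preExt W (pr S W0) n ≤ LinearMap.ker ((Q j).comp (post F (α_ Y A T).hom)) := by
      refine Submodule.map₂_le.2 ?_
      intro ya hya t ht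
      rw [LinearMap.mem_ker, LinearMap.comp_apply]
      have hle2 : pr S W0 ≤ LinearMap.ker (((Q j).comp (post F (α_ Y A T).hom)).comp
          (emulR F t)) := by
        refine Submodule.map₂_le.2 ?_
        intro y hy a ha
        rw [LinearMap.mem_ker, LinearMap.comp_apply, LinearMap.comp_apply]
        change (emul (emul y a) t ≫ (α_ Y A T).hom) ≫ Y ◁ ((g j ▷ T) ≫ (λ_ T).hom) = 0
        rw [← emul_assoc, emul_contract_mid, hW0g a ha j, Limits.zero_comp, emul_zero]
      exact hle2 hya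
    exact hle hz
  have hinj : Function.Injective Φ := by
    rw [← LinearMap.ker_eq_bot, LinearMap.ker_eq_bot']
    intro p hp
    rw [hΦ] at hp
    have h2 : ∀ i, (p.2 i : 𝟙_ C ⟶ Y ⊗ T) = 0 := by
      intro i
      have h3 := congrArg (Q i) hp
      rw [map_add, hQ0 i _ p.1.2, zero_add, map_sum, map_zero] at h3
      rw [Finset.sum_eq_single i] at h3
      · rw [hQΨ, if_pos rfl] at h3
        exact h3
      · intro j _ hj
        rw [hQΨ, if_neg hj]
      · intro h
        exact absurd (Finset.mem_univ i) h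
    have h4 : (p.1 : 𝟙_ C ⟶ (Y ⊗ A) ⊗ T) = 0 := by
      have h5 : ∑ j, Ψ j (p.2 j : 𝟙_ C ⟶ Y ⊗ T) = 0 := by
        refine Finset.sum_eq_zero fun j _ => ?_
        rw [h2 j, map_zero]
      rw [h5, add_zero] at hp
      have h6 := congrArg (· ≫ (α_ Y A T).inv) hp
      simpa using h6
    apply Prod.ext
    · exact Subtype.ext h4
    · funext i
      exact Subtype.ext (h2 i)
  have hrange : LinearMap.range Φ = preExt W S (n + 1) := by
    apply le_antisymm
    · rintro _ ⟨p, rfl⟩
      rw [hΦ]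
      refine Submodule.add_mem _ ?_ (Submodule.sum_mem _ fun j _ => ?_)
      · have hle : preExt W (pr S W0) n ≤
            (preExt W S (n + 1)).comap (post F (α_ Y A T).hom) := by
          refine Submodule.map₂_le.2 ?_
          intro ya hya t ht
          have hle2 : pr S W0 ≤
              ((preExt W S (n + 1)).comap (post F (α_ Y A T).hom)).comap (emulR F t) := by
            refine Submodule.map₂_le.2 ?_
            intro y hy a ha
            change emul (emul y a) t ≫ (α_ Y A T).hom ∈ preExt W S (n + 1)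
            rw [← emul_assoc]
            exact Submodule.apply_mem_map₂ _ hy (Submodule.apply_mem_map₂ _ (hW0 ha) ht)
          exact hle2 hya
        exact hle p.1.2
      · have hle : preExt W S n ≤ (preExt W S (n + 1)).comap (Ψ j) := by
          refine Submodule.map₂_le.2 ?_
          intro y hy t ht
          change emul y t ≫ Y ◁ ins (b j) T ∈ preExt W S (n + 1)
          rw [emul_insmid]
          exact Submodule.apply_mem_map₂ _ hy (Submodule.apply_mem_map₂ _ (hb j) ht)
        exact hle (p.2 j).2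
    · refine Submodule.map₂_le.2 ?_
      intro y hy at' hat'
      have hle : extPow F W (n + 1) ≤ (LinearMap.range Φ).comap (emulL F y) := by
        refine Submodule.map₂_le.2 ?_
        intro a ha t ht
        change emul y (emul a t) ∈ LinearMap.range Φ
        obtain ⟨a0, ha0, c, rfl⟩ := hdec a ha
        refine ⟨(⟨emul (emul y a0) t, Submodule.apply_mem_map₂ _
          (Submodule.apply_mem_map₂ _ hy ha0) ht⟩,
          fun j => c j • ⟨emul y t, Submodule.apply_mem_map₂ _ hy ht⟩), ?_⟩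
        rw [hΦ]
        change emul (emul y a0) t ≫ (α_ Y A T).hom + ∑ j, Ψ j (c j • emul y t) = _
        rw [← emul_assoc, add_emul, emul_add]
        congr 1
        have h7 : emul y (emul (∑ j, c j • b j) t) =
            ((emulL F y).comp (emulR F t)) (∑ j, c j • b j) := rfl
        rw [h7, map_sum]
        refine Finset.sum_congr rfl fun j _ => ?_
        rw [map_smul, map_smul]
        congr 1
        exact emul_insmid y (b j) t
      exact hle hat'
  rw [← hrange, LinearMap.finrank_range_of_inj hinj, Module.finrank_prod,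
    Module.finrank_pi_fintype]
  simp

/-- Y-prefixed dimension formula -/
theorem finrank_preExt_eq {A : C} (W W0 : Submodule F (𝟙_ C ⟶ A)) [Module.Finite F W]
    [Module.Finite F W0] (hW0 : W0 ≤ W) {ρ : ℕ} (b : Fin ρ → (𝟙_ C ⟶ A))
    (g : Fin ρ → (A ⟶ 𝟙_ C)) (hb : ∀ j, b j ∈ W)
    (hbg : ∀ i j, b i ≫ g j = if i = j then 𝟙 (𝟙_ C) else 0)
    (hW0g : ∀ a ∈ W0, ∀ j, a ≫ g j = 0)
    (hdec : ∀ a ∈ W, ∃ a0 ∈ W0, ∃ c : Fin ρ → F, a = a0 + ∑ j, c j • b j) (n : ℕ) :
    ∀ {Y : C} (S : Submodule F (𝟙_ C ⟶ Y)) [Module.Finite F S],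
    Module.finrank F (preExt W S n) =
      ∑ i ∈ Finset.range (n + 1), n.choose i * ρ ^ (n - i) * Module.finrank F (preExt W0 S i) := by
  induction n with
  | zero =>
    intro Y S _
    simp
    rfl
  | succ n ih =>
    intro Y S _
    have hrec0 : ∀ i, Module.finrank F (preExt W0 S (i + 1)) =
        Module.finrank F (preExt W0 (pr S W0) i) := by
      intro i
      have h := finrank_preExt_succ W0 W0 le_rfl (ρ := 0) (fun j => j.elim0) (fun j => j.elim0)
        (fun j => j.elim0) (fun j => j.elim0) (fun a _ j => j.elim0)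
        (fun a ha => ⟨a, ha, fun j => j.elim0, by simp⟩) S i
      rw [h, zero_mul, add_zero]
    rw [finrank_preExt_succ W W0 hW0 b g hb hbg hW0g hdec S n, ih (pr S W0), ih S]
    simp_rw [← hrec0]
    set d : ℕ → ℕ := fun i => Module.finrank F (preExt W0 S i) with hd
    change ∑ i ∈ Finset.range (n + 1), n.choose i * ρ ^ (n - i) * d (i + 1) +
      ρ * ∑ i ∈ Finset.range (n + 1), n.choose i * ρ ^ (n - i) * d i =
      ∑ i ∈ Finset.range (n + 1 + 1), (n + 1).choose i * ρ ^ (n + 1 - i) * d i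
    rw [Finset.sum_range_succ' (fun i => (n + 1).choose i * ρ ^ (n + 1 - i) * d i)]
    have h1 : ∀ i ∈ Finset.range (n + 1), (n + 1).choose (i + 1) * ρ ^ (n + 1 - (i + 1)) * d (i + 1)
        = n.choose i * ρ ^ (n - i) * d (i + 1) + n.choose (i + 1) * ρ ^ (n - i) * d (i + 1) := by
      intro i _
      rw [Nat.choose_succ_succ, Nat.add_sub_add_right]
      ring
    rw [Finset.sum_congr rfl h1, Finset.sum_add_distrib, add_assoc]
    congr 1
    rw [Finset.mul_sum, Finset.sum_range_succ' (fun i => ρ * (n.choose i * ρ ^ (n - i) * d i)),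
      Finset.sum_range_succ (fun i => n.choose (i + 1) * ρ ^ (n - i) * d (i + 1))]
    have h2 : ∀ i ∈ Finset.range n, ρ * (n.choose (i + 1) * ρ ^ (n - (i + 1)) * d (i + 1)) =
        n.choose (i + 1) * ρ ^ (n - i) * d (i + 1) := by
      intro i hi
      have h3 : n - i = (n - (i + 1)) + 1 := by
        have := Finset.mem_range.1 hi
        omega
      rw [h3, pow_succ]
      ring
    rw [Finset.sum_congr rfl h2]
    simp only [Nat.choose_succ_self, zero_mul, add_zero, Nat.choose_zero_right, Nat.sub_zero,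
      one_mul, pow_succ]
    ring

end Pool.Agent.H71.SN
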