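import Pool.Agent.H71.SN.Rank2

open CategoryTheory MonoidalCategory

set_option linter.unusedSectionVars false

namespace Pool.Agent.H71.SN

universe v u

section

variable {F : Type*} [Field F] {C : Type u} [Category.{v} C] [Preadditive C] [Linear F C]
  [MonoidalCategory C] [MonoidalPreadditive C] [MonoidalLinear F C]

theorem emul_id {T : C} (t : 𝟙_ C ⟶ T) : emul (𝟙 (𝟙_ C)) t = t ≫ (λ_ T).inv := by
  unfold emul
  rw [MonoidalCategory.id_tensorHom, leftUnitor_inv_naturality]

theorem finrank_preExt_one {A : C} (W : Submodule F (𝟙_ C ⟶ A)) (n : ℕ) :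
    Module.finrank F (preExt W (Submodule.span F {𝟙 (𝟙_ C)}) n) =
      Module.finrank F (extPow F W n) := by
  have h1 : preExt W (Submodule.span F {𝟙 (𝟙_ C)}) n =
      (extPow F W n).map (emulL F (B := tpow A n) (𝟙 (𝟙_ C))) := by
    unfold preExt
    rw [Submodule.map₂_span_singleton_eq_map]
    rfl
  rw [h1]
  refine (LinearEquiv.finrank_eq (Submodule.equivMapOfInjective _ ?_ _)).symm
  intro s t hst
  change emul (𝟙 (𝟙_ C)) s = emul (𝟙 (𝟙_ C)) t at hst
  rw [emul_id, emul_id] at hst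
  exact (cancel_mono _).1 hst

variable (h1 : 𝟙 (𝟙_ C) ≠ 0) (hunit : ∀ z : 𝟙_ C ⟶ 𝟙_ C, ∃ c : F, z = c • 𝟙 (𝟙_ C))

include h1 hunit in
/-- The dimension formula. -/
theorem finrank_extPow {A : C} (W : Submodule F (𝟙_ C ⟶ A)) [Module.Finite F W] (ρ : ℕ)
    (hρ : Module.finrank F (W ⊓ numTriv F A : Submodule F (𝟙_ C ⟶ A)) + ρ =
      Module.finrank F W) (n : ℕ) :
    Module.finrank F (extPow F W n) = ∑ i ∈ Finset.range (n + 1), n.choose i * ρ ^ (n - i) *
      Module.finrank F (extPow F (W ⊓ numTriv F A) i) := by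
  have hfin : Module.Finite F (W ⊓ numTriv F A : Submodule F (𝟙_ C ⟶ A)) :=
    Submodule.finiteDimensional_inf_left W (numTriv F A)
  obtain ⟨b, g, hb, hbg, hdec⟩ := exists_adapted h1 hunit W ρ hρ
  have h := finrank_preExt_eq W (W ⊓ numTriv F A) inf_le_left b g hb hbg
    (fun a ha j => ha.2 (g j)) hdec n (Submodule.span F {𝟙 (𝟙_ C)})
  rw [finrank_preExt_one] at h
  rw [h]
  refine Finset.sum_congr rfl fun i _ => ?_
  rw [finrank_preExt_one]

theorem epow_mem_extPow {A : C} (W : Submodule F (𝟙_ C ⟶ A)) (x : 𝟙_ C ⟶ A) (hx : x ∈ W) (n : ℕ) :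
    epow x n ∈ extPow F W n := by
  induction n with
  | zero => exact Submodule.mem_span_singleton_self _
  | succ n ih => exact Submodule.apply_mem_map₂ _ hx ih

include h1 hunit in
theorem pow_le_finrank {A : C} (W : Submodule F (𝟙_ C ⟶ A)) [Module.Finite F W] (ρ : ℕ)
    (hρ : Module.finrank F (W ⊓ numTriv F A : Submodule F (𝟙_ C ⟶ A)) + ρ =
      Module.finrank F W) (x : 𝟙_ C ⟶ A) (hx : x ∈ W) (hx0 : NumTriv x) (n : ℕ)
    (hpow : ∀ i ≤ n, epow x i ≠ 0) :
    (ρ + 1) ^ n ≤ Module.finrank F (extPow F W n) := by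
  have hfin : Module.Finite F (W ⊓ numTriv F A : Submodule F (𝟙_ C ⟶ A)) :=
    Submodule.finiteDimensional_inf_left W (numTriv F A)
  rw [finrank_extPow h1 hunit W ρ hρ n, add_comm ρ 1, add_pow]
  refine Finset.sum_le_sum fun i hi => ?_
  have h2 : 1 ≤ Module.finrank F (extPow F (W ⊓ numTriv F A) i) := by
    rw [Nat.succ_le_iff, Module.finrank_pos_iff]
    have h3 : x ∈ (W ⊓ numTriv F A : Submodule F (𝟙_ C ⟶ A)) := ⟨hx, hx0⟩
    refine ⟨⟨⟨epow x i, epow_mem_extPow _ x h3 i⟩, 0, fun h => ?_⟩⟩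
    exact hpow i (Nat.lt_succ_iff.1 (Finset.mem_range.1 hi)) (congrArg Subtype.val h)
  calc 1 ^ i * ρ ^ (n - i) * n.choose i = n.choose i * ρ ^ (n - i) * 1 := by
        rw [one_pow]; push_cast; ring
    _ ≤ _ := Nat.mul_le_mul_left _ h2

end

section braided

variable {C : Type u} [Category.{v} C] [Preadditive C] [MonoidalCategory C]
  [BraidedCategory C] [MonoidalPreadditive C]

theorem emul_eq_comp_ins {A T : C} (a : 𝟙_ C ⟶ A) (t : 𝟙_ C ⟶ T) : emul a t = t ≫ ins a T := by
  rw [ins_naturality]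
  unfold emul ins
  rw [MonoidalCategory.tensorHom_def]
  simp

theorem emul_swap {A B T : C} (a : 𝟙_ C ⟶ A) (b : 𝟙_ C ⟶ B) (t : 𝟙_ C ⟶ T) :
    emul a (emul b t) ≫ swapL A B T = emul b (emul a t) := by
  rw [emul_eq_comp_ins a, emul_eq_comp_ins b t, emul_eq_comp_ins b (emul a t),
    emul_eq_comp_ins a t]
  simp only [Category.assoc]
  rw [ins_swapL, ← ins_naturality]

theorem emul_swap_zero {A B T : C} (a : 𝟙_ C ⟶ A) (b : 𝟙_ C ⟶ B) (t : 𝟙_ C ⟶ T)
    (h : emul a (emul b t) = 0) : emul b (emul a t) = 0 := by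
  rw [← emul_swap, h, Limits.zero_comp]

theorem epow_zero_of_le {A : C} (x : 𝟙_ C ⟶ A) {m n : ℕ} (hmn : m ≤ n) (h : epow x m = 0) :
    epow x n = 0 := by
  induction n, hmn using Nat.le_induction with
  | base => exact h
  | succ n _ ih =>
    change emul x (epow x n) = 0
    rw [ih, emul_zero]

/-- number of occurrences of a letter -/
def cnt {ι : Type*} [DecidableEq ι] (i : ι) : (n : ℕ) → (Fin n → ι) → ℕ
  | 0, _ => 0
  | n + 1, w => (if w 0 = i then 1 else 0) + cnt i n (fun j => w j.succ)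

theorem sum_cnt {ι : Type*} [DecidableEq ι] [Fintype ι] (n : ℕ) : ∀ w : Fin n → ι,
    ∑ i, cnt i n w = n := by
  induction n with
  | zero => intro w; simp [cnt]
  | succ n ih =>
    intro w
    simp only [cnt, Finset.sum_add_distrib, ih]
    simp [add_comm]

theorem emul_word_eq_zero {A : C} {ι : Type*} [DecidableEq ι] (e : ι → (𝟙_ C ⟶ A)) (i : ι)
    (m : ℕ) (hm : epow (e i) m = 0) (n : ℕ) : ∀ (w : Fin n → ι) (j : ℕ), m ≤ j + cnt i n w →
      emul (epow (e i) j) (word e n w) = 0 := by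
  induction n with
  | zero =>
    intro w j hj
    rw [epow_zero_of_le (e i) (by simpa [cnt] using hj) hm, zero_emul]
  | succ n ih =>
    intro w j hj
    change emul (epow (e i) j) (emul (e (w 0)) (word e n (fun k => w k.succ))) = 0
    by_cases hw : w 0 = i
    · rw [hw]
      apply emul_swap_zero
      apply (emul_regroup_eq_zero_iff _ _ _).1
      apply ih (fun k => w k.succ) (j + 1)
      simp only [cnt, if_pos hw] at hj
      omega
    · apply emul_swap_zero
      rw [ih (fun k => w k.succ) j (by simpa [cnt, hw] using hj), emul_zero]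

theorem word_eq_zero {A : C} {ι : Type*} [DecidableEq ι] (e : ι → (𝟙_ C ⟶ A)) (i : ι)
    (m : ℕ) (hm : epow (e i) m = 0) (n : ℕ) (w : Fin n → ι) (hw : m ≤ cnt i n w) :
    word e n w = 0 := by
  have h := emul_word_eq_zero e i m hm n w 0 (by omega)
  change emul (𝟙 (𝟙_ C)) (word e n w) = 0 at h
  rw [emul_id] at h
  have h2 := congrArg (· ≫ (λ_ (tpow A n)).hom) h
  simpa using h2

variable {F : Type*} [Field F] [Linear F C] [MonoidalLinear F C]

theorem extPow_span_le {A : C} {ι : Type*} (e : ι → (𝟙_ C ⟶ A)) (n : ℕ) :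
    extPow F (Submodule.span F (Set.range e)) n ≤
      Submodule.span F (Set.range (fun w : Fin n → ι => word e n w)) := by
  induction n with
  | zero =>
    refine Submodule.span_le.2 ?_
    rintro _ rfl
    exact Submodule.subset_span ⟨fun j => j.elim0, rfl⟩
  | succ n ih =>
    refine (Submodule.map₂_le_map₂ le_rfl ih).trans ?_
    rw [Submodule.map₂_span_span]
    refine Submodule.span_le.2 ?_
    rintro _ ⟨_, ⟨i, rfl⟩, _, ⟨w, rfl⟩, rfl⟩
    refine Submodule.subset_span ⟨Fin.cons i w, ?_⟩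
    simp [word]

theorem extPow_mono {A : C} {W W' : Submodule F (𝟙_ C ⟶ A)} (h : W ≤ W') (n : ℕ) :
    extPow F W n ≤ extPow F W' n := by
  induction n with
  | zero => exact le_rfl
  | succ n ih => exact Submodule.map₂_le_map₂ h ih

/-- a finite-dimensional space of nilpotent elements is nilpotent -/
theorem exists_extPow_eq_bot {A : C} (W : Submodule F (𝟙_ C ⟶ A)) [Module.Finite F W]
    (hW : ∀ x ∈ W, ∃ m, epow x m = 0) : ∃ K, ∀ n, K ≤ n → extPow F W n = ⊥ := by
  classical
  let d := Module.finrank F W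
  let r := Module.finBasis F W
  let e : Fin d → (𝟙_ C ⟶ A) := fun i => (r i : 𝟙_ C ⟶ A)
  have hspan : W ≤ Submodule.span F (Set.range e) := by
    intro a ha
    have h3 := r.sum_repr ⟨a, ha⟩
    have h4 : a = ∑ i, r.repr ⟨a, ha⟩ i • e i := by
      have h5 := congrArg Subtype.val h3
      rw [AddSubmonoidClass.coe_finsetSum] at h5
      exact h5.symm
    rw [h4]
    exact Submodule.sum_mem _ fun i _ => Submodule.smul_mem _ _ (Submodule.subset_span ⟨i, rfl⟩)
  choose m hm using fun i => hW (e i) (r i).2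
  obtain ⟨M, hM⟩ : ∃ M, ∀ i, m i ≤ M := ⟨∑ i, m i, fun i =>
    Finset.single_le_sum (f := m) (fun _ _ => Nat.zero_le _) (Finset.mem_univ i)⟩
  refine ⟨d * M + 1, fun n hn => ?_⟩
  rw [eq_bot_iff]
  refine (extPow_mono hspan n).trans ((extPow_span_le e n).trans ?_)
  rw [Submodule.span_le]
  rintro _ ⟨w, rfl⟩
  have h6 : ∃ i, M ≤ cnt i n w := by
    by_contra hcon
    push Not at hcon
    have h7 : ∑ i, cnt i n w ≤ ∑ _i : Fin d, M := Finset.sum_le_sum fun i _ => (hcon i).le
    rw [sum_cnt] at h7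
    simp at h7
    omega
  obtain ⟨i, hi⟩ := h6
  have h8 := word_eq_zero e i (m i) (hm i) n w ((hM i).trans hi)
  exact h8

end braided

end Pool.Agent.H71.SN
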