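import Mathlib

open CategoryTheory MonoidalCategory

namespace Pool.Agent.H71.SN

universe v u

section defs

variable {C : Type u} [Category.{v} C] [MonoidalCategory C]

/-- The tensor power `A ⊗ (A ⊗ (⋯ ⊗ 𝟙))` with `n` factors `A`. -/
@[reducible] def tpow (A : C) : ℕ → C
  | 0 => 𝟙_ C
  | n + 1 => A ⊗ tpow A n

/-- The tensor product `a ⊗ b : 𝟙 ⟶ A ⊗ B` of two elements (for cycles: exterior product). -/
def emul {A B : C} (a : 𝟙_ C ⟶ A) (b : 𝟙_ C ⟶ B) : 𝟙_ C ⟶ A ⊗ B :=
  (λ_ (𝟙_ C)).inv ≫ (a ⊗ₘ b)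

/-- The exterior product `e (w 0) ⊗ e (w 1) ⊗ ⋯ ⊗ e (w (n-1))` of elements `e i : 𝟙 ⟶ A`. -/
def word {A : C} {ι : Type*} (e : ι → (𝟙_ C ⟶ A)) : (n : ℕ) → (Fin n → ι) → (𝟙_ C ⟶ tpow A n)
  | 0, _ => 𝟙 (𝟙_ C)
  | n + 1, w => emul (e (w 0)) (word e n (fun i => w i.succ))

/-- The `n`-th exterior power `x ⊗ x ⊗ ⋯ ⊗ x` of an element `x : 𝟙 ⟶ A`. -/
def epow {A : C} (x : 𝟙_ C ⟶ A) : (n : ℕ) → (𝟙_ C ⟶ tpow A n)
  | 0 => 𝟙 (𝟙_ C)
  | n + 1 => emul x (epow x n)

end defs

section num

variable {C : Type u} [Category.{v} C] [Preadditive C] [MonoidalCategory C]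

/-- An element `x : 𝟙 ⟶ A` is numerically trivial if all its compositions with morphisms
`A ⟶ 𝟙` vanish. -/
def NumTriv {A : C} (x : 𝟙_ C ⟶ A) : Prop := ∀ g : A ⟶ 𝟙_ C, x ≫ g = 0

end num

section lemmas

variable {C : Type u} [Category.{v} C] [MonoidalCategory C]

/-- re-association of exterior products -/
theorem emul_assoc {A B D : C} (a : 𝟙_ C ⟶ A) (b : 𝟙_ C ⟶ B) (d : 𝟙_ C ⟶ D) :
    emul a (emul b d) = emul (emul a b) d ≫ (α_ A B D).hom := by
  unfold emul
  have h1 : (a ⊗ₘ ((λ_ (𝟙_ C)).inv ≫ (b ⊗ₘ d))) = (𝟙_ C ◁ (λ_ (𝟙_ C)).inv) ≫ (a ⊗ₘ (b ⊗ₘ d)) := by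
    rw [← MonoidalCategory.id_tensorHom, MonoidalCategory.tensorHom_comp_tensorHom,
      Category.id_comp]
  have h2 : (((λ_ (𝟙_ C)).inv ≫ (a ⊗ₘ b)) ⊗ₘ d) = ((λ_ (𝟙_ C)).inv ▷ 𝟙_ C) ≫ ((a ⊗ₘ b) ⊗ₘ d) := by
    rw [← MonoidalCategory.tensorHom_id, MonoidalCategory.tensorHom_comp_tensorHom,
      Category.id_comp]
  have coh : (λ_ (𝟙_ C)).inv ≫ 𝟙_ C ◁ (λ_ (𝟙_ C)).inv =
      (λ_ (𝟙_ C)).inv ≫ (λ_ (𝟙_ C)).inv ▷ 𝟙_ C ≫ (α_ (𝟙_ C) (𝟙_ C) (𝟙_ C)).hom := by
    monoidal
  rw [h1, h2, ← Category.assoc, coh]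
  simp only [Category.assoc, MonoidalCategory.associator_naturality]

/-- contraction of the first factor -/
theorem emul_contract {A B : C} (a : 𝟙_ C ⟶ A) (b : 𝟙_ C ⟶ B) (g : A ⟶ 𝟙_ C) :
    emul a b ≫ (g ▷ B) ≫ (λ_ B).hom = (a ≫ g) ≫ b := by
  unfold emul
  rw [MonoidalCategory.tensorHom_def]
  simp only [Category.assoc, MonoidalCategory.whisker_exchange_assoc]
  rw [leftUnitor_naturality, ← Category.assoc (a ▷ _), ← comp_whiskerRight,
    unitors_equal, rightUnitor_naturality_assoc, ← unitors_equal]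
  simp

/-- contraction of the first factor of the second element -/
theorem emul_contract_mid {Y A B : C} (y : 𝟙_ C ⟶ Y) (a : 𝟙_ C ⟶ A) (b : 𝟙_ C ⟶ B)
    (g : A ⟶ 𝟙_ C) :
    emul y (emul a b) ≫ Y ◁ ((g ▷ B) ≫ (λ_ B).hom) = emul y ((a ≫ g) ≫ b) := by
  rw [← emul_contract a b g]
  unfold emul
  rw [← MonoidalCategory.id_tensorHom, Category.assoc, MonoidalCategory.tensorHom_comp_tensorHom,
    Category.comp_id]

end lemmas

section lin

variable {C : Type u} [Category.{v} C] [Preadditive C] [MonoidalCategory C]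
  [MonoidalPreadditive C]

theorem emul_add {A B : C} (a : 𝟙_ C ⟶ A) (b b' : 𝟙_ C ⟶ B) :
    emul a (b + b') = emul a b + emul a b' := by
  unfold emul; rw [MonoidalPreadditive.tensor_add, Preadditive.comp_add]

theorem add_emul {A B : C} (a a' : 𝟙_ C ⟶ A) (b : 𝟙_ C ⟶ B) :
    emul (a + a') b = emul a b + emul a' b := by
  unfold emul; rw [MonoidalPreadditive.add_tensor, Preadditive.comp_add]

@[simp] theorem emul_zero {A B : C} (a : 𝟙_ C ⟶ A) : emul a (0 : 𝟙_ C ⟶ B) = 0 := by
  unfold emul; rw [MonoidalPreadditive.tensor_zero, Limits.comp_zero]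

@[simp] theorem zero_emul {A B : C} (b : 𝟙_ C ⟶ B) : emul (0 : 𝟙_ C ⟶ A) b = 0 := by
  unfold emul; rw [MonoidalPreadditive.zero_tensor, Limits.comp_zero]

variable {F : Type*} [Field F] [Linear F C] [MonoidalLinear F C]

theorem emul_smul {A B : C} (a : 𝟙_ C ⟶ A) (c : F) (b : 𝟙_ C ⟶ B) :
    emul a (c • b) = c • emul a b := by
  unfold emul
  rw [MonoidalCategory.tensorHom_def, MonoidalCategory.tensorHom_def,
    MonoidalLinear.whiskerLeft_smul, Linear.comp_smul, Linear.comp_smul]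

theorem smul_emul {A B : C} (c : F) (a : 𝟙_ C ⟶ A) (b : 𝟙_ C ⟶ B) :
    emul (c • a) b = c • emul a b := by
  unfold emul
  rw [MonoidalCategory.tensorHom_def, MonoidalCategory.tensorHom_def,
    MonoidalLinear.smul_whiskerRight, Linear.smul_comp, Linear.comp_smul]

/-- exterior multiplication by `y` as a linear map -/
def emulL (F : Type*) [Field F] [Linear F C] [MonoidalLinear F C] {Y B : C} (y : 𝟙_ C ⟶ Y) :
    (𝟙_ C ⟶ B) →ₗ[F] (𝟙_ C ⟶ Y ⊗ B) where
  toFun b := emul y b
  map_add' := emul_add y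
  map_smul' c b := emul_smul y c b

/-- exterior multiplication on the right by `t` as a linear map -/
def emulR (F : Type*) [Field F] [Linear F C] [MonoidalLinear F C] {Y B : C} (t : 𝟙_ C ⟶ B) :
    (𝟙_ C ⟶ Y) →ₗ[F] (𝟙_ C ⟶ Y ⊗ B) where
  toFun b := emul b t
  map_add' a a' := add_emul a a' t
  map_smul' c b := smul_emul c b t

@[simp] theorem emulL_apply {Y B : C} (y : 𝟙_ C ⟶ Y) (b : 𝟙_ C ⟶ B) :
    emulL F y b = emul y b := rfl

@[simp] theorem emulR_apply {Y B : C} (t : 𝟙_ C ⟶ B) (y : 𝟙_ C ⟶ Y) :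
    emulR F t y = emul y t := rfl

end lin

section main

variable {F : Type*} [Field F] {C : Type u} [Category.{v} C] [Preadditive C] [Linear F C]
  [MonoidalCategory C] [MonoidalPreadditive C] [MonoidalLinear F C]

omit [MonoidalPreadditive C] in
/-- regrouping `(y ⊗ x) ⊗ t` -/
theorem emul_regroup_eq_zero_iff {Y A B : C} (y : 𝟙_ C ⟶ Y) (x : 𝟙_ C ⟶ A) (t : 𝟙_ C ⟶ B) :
    emul (emul y x) t = 0 ↔ emul y (emul x t) = 0 := by
  rw [emul_assoc]
  constructor
  · intro h; rw [h, Limits.zero_comp]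
  · intro h
    have := congrArg (· ≫ (α_ Y A B).inv) h
    simpa using this

theorem epow_step {A : C} (x : 𝟙_ C ⟶ A) (n : ℕ) : ∀ {Y : C} (y : 𝟙_ C ⟶ Y),
    emul y (epow x n) = 0 → emul y (epow x (n + 1)) = 0 := by
  induction n with
  | zero =>
    intro Y y hy
    have h1 : emul y (epow x 0) = y ≫ (ρ_ Y).inv := by
      unfold emul epow
      rw [MonoidalCategory.tensorHom_id, rightUnitor_inv_naturality, unitors_inv_equal]
    have h2 : y = 0 := by
      have h3 := congrArg (· ≫ (ρ_ Y).hom) (h1.symm.trans hy)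
      simpa using h3
    rw [h2, zero_emul]
  | succ n ih =>
    intro Y y hy
    have h1 : emul (emul y x) (epow x n) = 0 := (emul_regroup_eq_zero_iff y x (epow x n)).2 hy
    have h2 := ih (emul y x) h1
    exact (emul_regroup_eq_zero_iff y x (epow x (n + 1))).1 h2

/-- The key independence statement: if the numerically trivial elements of the span of a linearly
independent family are multiples of `x`, and `y ⊗ x ⊗ ⋯ ⊗ x ≠ 0`, then the elements
`y ⊗ e (w 0) ⊗ ⋯ ⊗ e (w (n-1))` are linearly independent. -/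
theorem indep_aux (hunit : ∀ z : 𝟙_ C ⟶ 𝟙_ C, ∃ c : F, z = c • 𝟙 (𝟙_ C)) {A : C} {ι : Type*}
    [Fintype ι] (e : ι → (𝟙_ C ⟶ A)) (he : LinearIndependent F e) (x : 𝟙_ C ⟶ A)
    (hW : ∀ c : ι → F, NumTriv (∑ i, c i • e i) → ∃ r : F, ∑ i, c i • e i = r • x)
    (n : ℕ) : ∀ {Y : C} (y : 𝟙_ C ⟶ Y), emul y (epow x n) ≠ 0 →
      LinearIndependent F (fun w : Fin n → ι => emul y (word e n w)) := by
  classical
  induction n with
  | zero =>
    intro Y y hy
    rw [Fintype.linearIndependent_iff]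
    intro c hc w
    have huniq : ∀ w' : Fin 0 → ι, w' = w := fun w' => Subsingleton.elim _ _
    have h1 : ∑ i : Fin 0 → ι, c i • emul y (word e 0 i) = c w • emul y (word e 0 w) := by
      rw [Fintype.sum_eq_single w]
      intro w' hw'
      exact absurd (huniq w') hw'
    rw [h1] at hc
    rcases smul_eq_zero.1 hc with h | h
    · exact h
    · exact absurd h hy
  | succ n ih =>
    intro Y y hy
    have hy1 : emul (emul y x) (epow x n) ≠ 0 := fun h =>
      hy ((emul_regroup_eq_zero_iff y x (epow x n)).1 h)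
    have hy0 : emul y (epow x n) ≠ 0 := fun h => hy (epow_step x n y h)
    rw [Fintype.linearIndependent_iff]
    intro c hc
    let v : (Fin n → ι) → (𝟙_ C ⟶ A) := fun w => ∑ i, c (Fin.cons i w) • e i
    have hsum : ∑ w : Fin n → ι, emul y (emul (v w) (word e n w)) = 0 := by
      rw [← hc]
      rw [← (Fin.consEquiv (fun _ : Fin (n + 1) => ι)).sum_comp]
      rw [Fintype.sum_prod_type_right]
      refine Finset.sum_congr rfl fun w _ => ?_
      have h1 : emul (v w) (word e n w) = ∑ i, c (Fin.cons i w) • emul (e i) (word e n w) := by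
        have := map_sum (emulR F (word e n w)) (fun i => c (Fin.cons i w) • e i) Finset.univ
        simp only [emulR_apply, smul_emul] at this
        exact this
      rw [h1]
      have h2 := map_sum (emulL F y) (fun i => c (Fin.cons i w) • emul (e i) (word e n w))
        Finset.univ
      simp only [emulL_apply, emul_smul] at h2
      rw [h2]
      rfl
    have hv : ∀ w, NumTriv (v w) := by
      intro w g
      choose s hs using fun w => hunit (v w ≫ g)
      have h1 : ∑ w : Fin n → ι, s w • emul y (word e n w) = 0 := by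
        have h2 := congrArg (· ≫ Y ◁ ((g ▷ tpow A n) ≫ (λ_ (tpow A n)).hom)) hsum
        simp only [Preadditive.sum_comp, Limits.zero_comp] at h2
        rw [← h2]
        refine Finset.sum_congr rfl fun w _ => ?_
        have h3 := emul_contract_mid y (v w) (word e n w) g
        refine Eq.trans ?_ h3.symm
        rw [hs w, Linear.smul_comp, Category.id_comp, emul_smul]
      have h4 := Fintype.linearIndependent_iff.1 (ih y hy0) s h1 w
      rw [hs w, h4, zero_smul]
    choose r hr using fun w => hW (fun i => c (Fin.cons i w)) (hv w)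
    have h5 : ∑ w : Fin n → ι, r w • emul (emul y x) (word e n w) = 0 := by
      have h6 := congrArg (· ≫ (α_ Y A (tpow A n)).inv) hsum
      simp only [Preadditive.sum_comp, Limits.zero_comp] at h6
      rw [← h6]
      refine Finset.sum_congr rfl fun w _ => ?_
      have h7 : v w = r w • x := hr w
      rw [h7, smul_emul, emul_smul, emul_assoc]
      simp
    have h8 := Fintype.linearIndependent_iff.1 (ih (emul y x) hy1) r h5
    intro w
    have h9 : v (Fin.tail w) = 0 := by
      have h10 : v (Fin.tail w) = r (Fin.tail w) • x := hr (Fin.tail w)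
      rw [h10, h8, zero_smul]
    have h11 := Fintype.linearIndependent_iff.1 he (fun i => c (Fin.cons i (Fin.tail w))) h9 (w 0)
    simpa using h11

/-- multilinear expansion of a power -/
theorem epow_sum {A : C} {ι : Type*} [Fintype ι] (e : ι → (𝟙_ C ⟶ A)) (a : ι → F) (n : ℕ) :
    epow (∑ i, a i • e i) n = ∑ w : Fin n → ι, (∏ j, a (w j)) • word e n w := by
  classical
  induction n with
  | zero =>
    rw [Fintype.sum_eq_single (fun i : Fin 0 => i.elim0)]
    · simp [epow, word]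
    · intro w hw
      exact absurd (Subsingleton.elim _ _) hw
  | succ n ih =>
    rw [← (Fin.consEquiv (fun _ : Fin (n + 1) => ι)).sum_comp, Fintype.sum_prod_type]
    have h1 : epow (∑ i, a i • e i) (n + 1) =
        ∑ i, a i • emul (e i) (epow (∑ i, a i • e i) n) := by
      have := map_sum (emulR F (epow (∑ i, a i • e i) n)) (fun i => a i • e i) Finset.univ
      simp only [emulR_apply, smul_emul] at this
      exact this
    rw [h1]
    refine Finset.sum_congr rfl fun i _ => ?_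
    rw [ih]
    have h2 := map_sum (emulL F (e i)) (fun w : Fin n → ι => (∏ j, a (w j)) • word e n w)
      Finset.univ
    simp only [emulL_apply, emul_smul] at h2
    rw [h2, Finset.smul_sum]
    refine Finset.sum_congr rfl fun w _ => ?_
    rw [smul_smul]
    have h3 : (∏ j, a ((Fin.consEquiv fun _ : Fin (n + 1) => ι) (i, w) j)) =
        a i * ∏ j, a (w j) := by
      rw [Fin.prod_univ_succ]
      rfl
    rw [h3]
    rfl

/-- **Main theorem.** -/
theorem words_indep_iff (hunit : ∀ z : 𝟙_ C ⟶ 𝟙_ C, ∃ c : F, z = c • 𝟙 (𝟙_ C))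
    {A : C} {ι : Type*}
    [Fintype ι] (e : ι → (𝟙_ C ⟶ A)) (he : LinearIndependent F e) (a : ι → F) (ha : a ≠ 0)
    (hW : ∀ c : ι → F, NumTriv (∑ i, c i • e i) ↔ ∃ r : F, c = r • a) (n : ℕ) :
    LinearIndependent F (word e n) ↔ epow (∑ i, a i • e i) n ≠ 0 := by
  classical
  constructor
  · intro h h0
    rw [epow_sum] at h0
    have h1 := Fintype.linearIndependent_iff.1 h _ h0
    obtain ⟨i, hi⟩ : ∃ i, a i ≠ 0 := by
      by_contra hcon
      push Not at hcon
      exact ha (funext hcon)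
    have h2 := h1 (fun _ => i)
    simp only [Finset.prod_const, Finset.card_univ, Fintype.card_fin] at h2
    exact pow_ne_zero n hi h2
  · intro h
    have hW' : ∀ c : ι → F, NumTriv (∑ i, c i • e i) →
        ∃ r : F, ∑ i, c i • e i = r • ∑ i, a i • e i := by
      intro c hc
      obtain ⟨r, hr⟩ := (hW c).1 hc
      refine ⟨r, ?_⟩
      rw [hr, Finset.smul_sum]
      refine Finset.sum_congr rfl fun i _ => ?_
      simp [smul_smul]
    have h1 : emul (𝟙 (𝟙_ C)) (epow (∑ i, a i • e i) n) ≠ 0 := by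
      intro h2
      apply h
      unfold emul at h2
      rw [MonoidalCategory.id_tensorHom] at h2
      have h3 := congrArg (· ≫ (λ_ _).hom) h2
      simpa using h3
    have h4 := indep_aux hunit e he _ hW' n (𝟙 (𝟙_ C)) h1
    have h5 : (fun w : Fin n → ι => emul (𝟙 (𝟙_ C)) (word e n w)) =
        (emulL F (𝟙 (𝟙_ C))) ∘ (word e n) := rfl
    rw [h5] at h4
    exact LinearIndependent.of_comp _ h4

end main

end Pool.Agent.H71.SN
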